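import Pool.Agent.L7h66.TS.Count

/-! # Project TS: the main step -/

set_option autoImplicit false

namespace Pool.Agent.L7h66.TS

open Finset

/-! ## padding -/

section
variable {ι D Q : Type}

/-- idle after `T` steps -/
def Prog.pad (P : Prog ι D Q) (T : ℕ) : Prog ι D Q where
  init := P.init
  pos := P.pos
  next := fun t q d => if t < T then P.next t q d else q
  out := P.out

lemma Prog.pad_st (P : Prog ι D Q) (T : ℕ) (z : ι → D) (t : ℕ) :
    (P.pad T).st z t = P.st z (min t T) := by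
  induction t with
  | zero => simp [Prog.st, Prog.pad]
  | succ t ih =>
    rw [Prog.st, ih]
    by_cases h : t < T
    · rw [min_eq_left h.le, min_eq_left (Nat.succ_le_of_lt h)]
      simp [Prog.pad, Prog.st, h]
    · push Not at h
      rw [min_eq_right h, min_eq_right (h.trans (Nat.le_succ t))]
      simp [Prog.pad, not_lt.2 h]

end

/-! ## the parameters -/

lemma lam_pos {k : ℕ} (hk : 1 ≤ k) : 1 ≤ lam k := by
  unfold lam
  have : 1 ≤ k ^ 2 := Nat.one_le_pow _ _ hk
  omega

lemma LL_ge {k : ℕ} (hk : 1 ≤ k) : 16 * k ≤ LL k := by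
  unfold LL
  have : 1 ≤ lam k ^ 2 := Nat.one_le_pow _ _ (lam_pos hk)
  nlinarith

lemma LL_pos {k : ℕ} (hk : 1 ≤ k) : 1 ≤ LL k := by
  have := LL_ge hk
  omega

lemma rr_pos {k : ℕ} (hk : 1 ≤ k) : 1 ≤ rr k := by
  unfold rr
  have h1 : 1 ≤ (256 * LL k ^ 2) ^ k := Nat.one_le_pow _ _ (by
    have : 1 ≤ LL k ^ 2 := Nat.one_le_pow _ _ (LL_pos hk)
    omega)
  have h2 : 1 ≤ k * LL k := Nat.mul_pos hk (LL_pos hk)
  exact Nat.mul_pos h2 h1

lemma th_eq {k : ℕ} (hk : 1 ≤ k) : th k = (k : ℝ) ^ 2 / rr k := by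
  have hL : (0 : ℝ) < LL k := by exact_mod_cast LL_pos hk
  have hk0 : (0 : ℝ) < k := by exact_mod_cast hk
  unfold th rr
  push_cast
  rw [one_div, inv_pow]
  field_simp

lemma th_pos {k : ℕ} (hk : 1 ≤ k) : 0 < th k := by
  rw [th_eq hk]
  have h1 : (0 : ℝ) < rr k := by exact_mod_cast rr_pos hk
  have hk0 : (0 : ℝ) < k := by exact_mod_cast hk
  positivity

/-! ## one forest -/

section
variable {n r : ℕ} {D : Type}

/-- the trees which read the item `i` of the first list -/
def rl (Φ : Forest (Fin n ⊕ Fin n) D r) (z : Fin n ⊕ Fin n → D) (i : Fin n) : Finset (Fin r) :=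
  univ.filter (fun j => Sum.inl i ∈ Φ.rd j z)

/-- the trees which read the item `i` of the second list -/
def rl' (Φ : Forest (Fin n ⊕ Fin n) D r) (z : Fin n ⊕ Fin n → D) (i : Fin n) : Finset (Fin r) :=
  univ.filter (fun j => Sum.inr i ∈ Φ.rd j z)

lemma card_lr (A : Finset (Fin n ⊕ Fin n)) :
    (univ.filter (fun i : Fin n => Sum.inl i ∈ A)).card +
      (univ.filter (fun i : Fin n => Sum.inr i ∈ A)).card = A.card := by
  have h : A = (univ.filter (fun i : Fin n => Sum.inl i ∈ A)).disjSum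
      (univ.filter (fun i : Fin n => Sum.inr i ∈ A)) := by
    ext x
    rcases x with i | i <;> simp
  conv_rhs => rw [h]
  rw [card_disjSum]

lemma sum_rl (Φ : Forest (Fin n ⊕ Fin n) D r) (z : Fin n ⊕ Fin n → D) {h : ℕ}
    (hh : ∀ j, (Φ.rd j z).card ≤ h) :
    ∑ i, (rl Φ z i).card ≤ r * h ∧ ∑ i, (rl' Φ z i).card ≤ r * h := by
  have e1 : ∑ i, (rl Φ z i).card = ∑ j, (univ.filter (fun i : Fin n => Sum.inl i ∈ Φ.rd j z)).card := by
    simp_rw [rl, card_filter]
    exact sum_comm
  have e2 : ∑ i, (rl' Φ z i).card = ∑ j, (univ.filter (fun i : Fin n => Sum.inr i ∈ Φ.rd j z)).card := by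
    simp_rw [rl', card_filter]
    exact sum_comm
  rw [e1, e2]
  constructor
  · calc _ ≤ ∑ _j : Fin r, h := sum_le_sum fun j _ => by
          have := card_lr (Φ.rd j z)
          have := hh j
          omega
      _ = r * h := by rw [sum_const, card_univ, Fintype.card_fin, smul_eq_mul]
  · calc _ ≤ ∑ _j : Fin r, h := sum_le_sum fun j _ => by
          have := card_lr (Φ.rd j z)
          have := hh j
          omega
      _ = r * h := by rw [sum_const, card_univ, Fintype.card_fin, smul_eq_mul]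

lemma pairs_le (Φ : Forest (Fin n ⊕ Fin n) D r) (z : Fin n ⊕ Fin n → D) {h : ℕ}
    (hh : ∀ j, (Φ.rd j z).card ≤ h) :
    4 * ((univ : Finset (Fin n × Fin n)).filter
      (fun p => ¬ Disjoint (rl Φ z p.1) (rl' Φ z p.2))).card ≤ r * h ^ 2 := by
  have h1 : (univ : Finset (Fin n × Fin n)).filter
      (fun p => ¬ Disjoint (rl Φ z p.1) (rl' Φ z p.2)) ⊆
      (univ : Finset (Fin r)).biUnion (fun j =>
        (univ.filter (fun i : Fin n => Sum.inl i ∈ Φ.rd j z)) ×ˢ
        (univ.filter (fun i : Fin n => Sum.inr i ∈ Φ.rd j z))) := by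
    rintro ⟨i, i'⟩ hi
    rw [mem_filter, Finset.not_disjoint_iff] at hi
    obtain ⟨-, j, hj, hj'⟩ := hi
    rw [mem_biUnion]
    refine ⟨j, mem_univ _, ?_⟩
    rw [mem_product]
    simp only [rl, rl', mem_filter, mem_univ, true_and] at hj hj' ⊢
    exact ⟨hj, hj'⟩
  have h2 := (card_le_card h1).trans card_biUnion_le
  calc 4 * _ ≤ 4 * ∑ j : Fin r, ((univ.filter (fun i : Fin n => Sum.inl i ∈ Φ.rd j z)) ×ˢ
        (univ.filter (fun i : Fin n => Sum.inr i ∈ Φ.rd j z))).card := Nat.mul_le_mul_left _ h2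
    _ = ∑ j : Fin r, 4 * ((univ.filter (fun i : Fin n => Sum.inl i ∈ Φ.rd j z)).card *
        (univ.filter (fun i : Fin n => Sum.inr i ∈ Φ.rd j z)).card) := by
        rw [mul_sum]
        exact sum_congr rfl fun j _ => by rw [card_product]
    _ ≤ ∑ _j : Fin r, h ^ 2 := by
        refine sum_le_sum fun j _ => ?_
        have h3 := card_lr (Φ.rd j z)
        have h4 := hh j
        set x := (univ.filter (fun i : Fin n => Sum.inl i ∈ Φ.rd j z)).card
        set y := (univ.filter (fun i : Fin n => Sum.inr i ∈ Φ.rd j z)).card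
        have h5 : x + y ≤ h := by omega
        have h6 : 4 * (x * y) ≤ (x + y) ^ 2 := by
          zify
          nlinarith [sq_nonneg ((x : ℤ) - y)]
        exact h6.trans (Nat.pow_le_pow_left h5 2)
    _ = r * h ^ 2 := by rw [sum_const, card_univ, Fintype.card_fin, smul_eq_mul]

end

lemma side_cases (L c : ℕ) : side L c = 0 ∨ side L c = 1 ∨ side L c = 2 := by
  unfold side
  split_ifs <;> simp

theorem forest_bound (hW : S_WINDOW) (hC : S_COLOR) (hN : S_NUM) (n k h : ℕ) (D : Type) [Fintype D]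
    [DecidableEq D] (Φ : Forest (Fin n ⊕ Fin n) D (rr k)) (Val : (Fin n → D) → Prop) (hk : 1 ≤ k)
    (hn : 1 ≤ n) (hb : 1 ≤ bb k n) (hh : ∀ j z, (Φ.rd j z).card ≤ h) (hrh : rr k * h ≤ k * n)
    (hcol : ∀ z : Fin n ⊕ Fin n → D, (∀ j, Φ.ac j z) → Val (fun i => z (Sum.inr i)) →
      ∀ i i', z (Sum.inl i) ≠ z (Sum.inr i'))
    (G : Finset (Fin n ⊕ Fin n → D))
    (hG : ∀ z ∈ G, (∀ j, Φ.ac j z) ∧ Val (fun i => z (Sum.inr i))) :
    (G.card : ℝ) ≤ (4 * n / th k) * (1 / 2) ^ bb k n * (Fintype.card D : ℝ) ^ (2 * n) := by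
  classical
  have hθ := th_pos hk
  have hr := rr_pos hk
  have hr' : (0 : ℝ) < rr k := by exact_mod_cast hr
  have hL := LL_pos hk
  have hL' : (0 : ℝ) < LL k := by exact_mod_cast hL
  have hk0 : (0 : ℝ) < k := by exact_mod_cast hk
  have hn0 : (0 : ℝ) < n := by exact_mod_cast hn
  have hlam := lam_pos hk
  have hlam' : (0 : ℝ) < lam k := by exact_mod_cast hlam
  have hlam1 : (1 : ℝ) ≤ lam k := by exact_mod_cast hlam
  set good : (Fin n ⊕ Fin n → D) → (Fin (rr k) → Fin (4 * LL k)) → Prop := fun z c =>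
    th k * n / 2 ≤ ((core (LL k) (rl' Φ z) c {2}).card : ℝ) ∧
      th k * n / 2 ≤ ((core (LL k) (rl Φ z) c {1}).card : ℝ) ∧
      ((core (LL k) (rl Φ z) c {1, 2} \ core (LL k) (rl Φ z) c {1}).card : ℝ) ≤
        16 * k / LL k * ((core (LL k) (rl Φ z) c {1}).card : ℝ) with hgood
  have hcolor : ∀ z, th k / 2 * ((4 * LL k : ℕ) : ℝ) ^ rr k ≤
      (((univ : Finset (Fin (rr k) → Fin (4 * LL k))).filter (good z)).card : ℝ) := by
    intro z
    obtain ⟨s1, s2⟩ := sum_rl Φ z (fun j => hh j z)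
    have h3 := pairs_le Φ z (fun j => hh j z)
    have h4 := hC n k (LL k) (rr k) (rl Φ z) (rl' Φ z) hn hk (LL_ge hk) (s1.trans hrh)
      (s2.trans hrh) (th k) rfl ?_
    · convert h4
    · have h5 : (4 : ℝ) * (((univ : Finset (Fin n × Fin n)).filter
          (fun p => ¬ Disjoint (rl Φ z p.1) (rl' Φ z p.2))).card : ℝ) ≤ rr k * (h : ℝ) ^ 2 := by
        exact_mod_cast h3
      refine h5.trans ?_
      rw [th_eq hk, div_mul_eq_mul_div, le_div_iff₀ hr']
      have h6 : (rr k : ℝ) * h ≤ k * n := by exact_mod_cast hrh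
      have h7 : (0 : ℝ) ≤ rr k * h := by positivity
      calc (rr k : ℝ) * (h : ℝ) ^ 2 * (rr k : ℝ) = ((rr k : ℝ) * (h : ℝ)) ^ 2 := by ring
        _ ≤ ((k : ℝ) * (n : ℝ)) ^ 2 := pow_le_pow_left₀ h7 h6 2
        _ = (k : ℝ) ^ 2 * (n : ℝ) ^ 2 := by ring
  -- a colouring which is good for many inputs
  have hex : ∃ c : Fin (rr k) → Fin (4 * LL k),
      th k / 2 * (G.card : ℝ) ≤ ((G.filter (fun z => good z c)).card : ℝ) := by
    by_contra hcon
    push Not at hcon
    have hsw : ∑ z ∈ G, ((univ : Finset (Fin (rr k) → Fin (4 * LL k))).filter (good z)).card =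
        ∑ c : Fin (rr k) → Fin (4 * LL k), (G.filter (fun z => good z c)).card := by
      simp_rw [card_filter]
      exact sum_comm
    have h1 : (G.card : ℝ) * (th k / 2 * ((4 * LL k : ℕ) : ℝ) ^ rr k) ≤
        ((∑ z ∈ G, ((univ : Finset (Fin (rr k) → Fin (4 * LL k))).filter (good z)).card : ℕ) : ℝ) := by
      push_cast
      rw [← nsmul_eq_mul, ← sum_const]
      refine sum_le_sum fun z _ => ?_
      have := hcolor z
      push_cast at this
      exact this
    have h2 : ((∑ c : Fin (rr k) → Fin (4 * LL k), (G.filter (fun z => good z c)).card : ℕ) : ℝ) <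
        ((4 * LL k : ℕ) : ℝ) ^ rr k * (th k / 2 * (G.card : ℝ)) := by
      rw [Nat.cast_sum]
      have hcardc : ((4 * LL k : ℕ) : ℝ) ^ rr k =
          ((univ : Finset (Fin (rr k) → Fin (4 * LL k))).card : ℝ) := by
        rw [card_univ, Fintype.card_fun, Fintype.card_fin, Fintype.card_fin]
        push_cast
        rfl
      rw [hcardc, ← nsmul_eq_mul, ← sum_const]
      refine sum_lt_sum_of_nonempty ?_ fun c _ => hcon c
      refine ⟨fun _ => ⟨0, by omega⟩, mem_univ _⟩
    rw [hsw] at h1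
    have := h1.trans_lt h2
    nlinarith
  obtain ⟨c, hc⟩ := hex
  set b := bb k n with hbdef
  set a := lam k * b with ha
  set e := b / lam k with he
  have hb' : (b : ℝ) ≤ th k * n / (4 * lam k) := Nat.floor_le (by positivity)
  have ha1 : 1 ≤ a := Nat.mul_pos hlam hb
  have ha' : (a : ℝ) ≤ th k * n / 4 := by
    rw [ha]
    push_cast
    calc (lam k : ℝ) * b ≤ lam k * (th k * n / (4 * lam k)) :=
          mul_le_mul_of_nonneg_left hb' hlam'.le
      _ = th k * n / 4 := by field_simp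
  have hb2 : (b : ℝ) ≤ th k * n / 2 := by
    refine hb'.trans ?_
    rw [div_le_div_iff₀ (by positivity) (by norm_num)]
    have : 0 < th k * n := by positivity
    nlinarith
  set col : Fin (rr k) → ℕ := fun j => side (LL k) (c j) with hcold
  -- the window
  have hwin : ∀ z ∈ G.filter (fun z => good z c), ∃ s < n,
      (∀ j, Φ.ac j z) ∧ Val (fun i => z (Sum.inr i)) ∧
        b ≤ (univ.filter (fun i : Fin n => ∀ j, Sum.inr i ∈ Φ.rd j z → col j = 2)).card ∧
        a ≤ (from' s (univ.filter (fun i : Fin n => ∀ j, Sum.inl i ∈ Φ.rd j z → col j = 1))).card ∧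
        firsts a (from' s (univ.filter (fun i : Fin n => ∀ j, Sum.inl i ∈ Φ.rd j z → col j = 1))) ⊆
          firsts (a + e) (from' s (univ.filter
            (fun i : Fin n => ∀ j, Sum.inl i ∈ Φ.rd j z → col j ≠ 0))) := by
    intro z hz
    rw [mem_filter] at hz
    obtain ⟨hzG, hg1, hg2, hg3⟩ := hz
    have eX : core (LL k) (rl Φ z) c {1} =
        univ.filter (fun i : Fin n => ∀ j, Sum.inl i ∈ Φ.rd j z → col j = 1) := by
      ext i
      simp [core, rl, hcold]
    have eA2 : core (LL k) (rl' Φ z) c {2} =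
        univ.filter (fun i : Fin n => ∀ j, Sum.inr i ∈ Φ.rd j z → col j = 2) := by
      ext i
      simp [core, rl', hcold]
    have eU : core (LL k) (rl Φ z) c {1, 2} =
        univ.filter (fun i : Fin n => ∀ j, Sum.inl i ∈ Φ.rd j z → col j ≠ 0) := by
      ext i
      simp only [core, rl, hcold, mem_filter, mem_univ, true_and, mem_insert, mem_singleton]
      refine forall_congr' fun j => imp_congr_right fun _ => ?_
      have := side_cases (LL k) (c j)
      omega
    set X := core (LL k) (rl Φ z) c {1} with hX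
    set U := core (LL k) (rl Φ z) c {1, 2} with hU
    have hXU : X ⊆ U := by
      intro i hi
      simp only [hX, hU, core, mem_filter, mem_univ, true_and] at hi ⊢
      intro j hj
      have := hi j hj
      rw [mem_singleton] at this
      rw [this]
      simp
    have haX : (2 * a : ℝ) ≤ X.card := by linarith
    have haX' : 2 * a ≤ X.card := by exact_mod_cast haX
    have hg : 1 ≤ X.card / a := (Nat.one_le_div_iff ha1).2 (by omega)
    have hga : X.card / a * a ≤ X.card := Nat.div_mul_le_self _ _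
    have hlt : X.card < (X.card / a + 1) * a := by
      have := Nat.lt_div_mul_add (a := X.card) ha1
      linarith
    have hdiff : (U \ X).card < X.card / a * (e + 1) := by
      have h1 : (X.card : ℝ) < 2 * ((X.card / a : ℕ) : ℝ) * a := by
        have : X.card < 2 * (X.card / a) * a := by nlinarith
        exact_mod_cast this
      have h2 : (b : ℝ) < lam k * (e + 1) := by
        have : b < lam k * (e + 1) := by
          rw [he]
          have := Nat.lt_mul_div_succ b hlam
          exact this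
        exact_mod_cast this
      have hg0 : (0 : ℝ) < ((X.card / a : ℕ) : ℝ) := by exact_mod_cast hg
      have hLL : (LL k : ℝ) = 32 * k * (lam k : ℝ) ^ 2 := by
        unfold LL
        push_cast
        rfl
      have h3 : ((U \ X).card : ℝ) < ((X.card / a : ℕ) : ℝ) * (e + 1) := by
        calc ((U \ X).card : ℝ) ≤ 16 * k / LL k * (X.card : ℝ) := hg3
          _ < 16 * k / LL k * (2 * ((X.card / a : ℕ) : ℝ) * a) :=
              mul_lt_mul_of_pos_left h1 (by positivity)
          _ = ((X.card / a : ℕ) : ℝ) * (b / lam k) := by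
              rw [hLL, ha]
              push_cast
              field_simp
              ring
          _ ≤ ((X.card / a : ℕ) : ℝ) * (e + 1) := by
              refine mul_le_mul_of_nonneg_left ?_ hg0.le
              rw [div_le_iff₀ hlam']
              linarith
      exact_mod_cast h3
    obtain ⟨s, hs, hs1, hs2⟩ := hW n a e (X.card / a) X U hXU ha1 hg hga hdiff
    refine ⟨s, hs, (hG z hzG).1, (hG z hzG).2, ?_, ?_, ?_⟩
    · have : (b : ℝ) ≤ ((core (LL k) (rl' Φ z) c {2}).card : ℝ) := hb2.trans hg1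
      rw [eA2] at this
      exact_mod_cast this
    · rw [← eX]
      exact hs1
    · rw [← eX, ← eU]
      exact hs2
  -- the sum over the starts of the windows
  have hcover : G.filter (fun z => good z c) ⊆ (range n).biUnion (fun s =>
      (G.filter (fun z => good z c)).filter (fun z =>
        (∀ j, Φ.ac j z) ∧ Val (fun i => z (Sum.inr i)) ∧
        b ≤ (univ.filter (fun i : Fin n => ∀ j, Sum.inr i ∈ Φ.rd j z → col j = 2)).card ∧
        a ≤ (from' s (univ.filter (fun i : Fin n => ∀ j, Sum.inl i ∈ Φ.rd j z → col j = 1))).card ∧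
        firsts a (from' s (univ.filter (fun i : Fin n => ∀ j, Sum.inl i ∈ Φ.rd j z → col j = 1))) ⊆
          firsts (a + e) (from' s (univ.filter
            (fun i : Fin n => ∀ j, Sum.inl i ∈ Φ.rd j z → col j ≠ 0))))) := by
    intro z hz
    obtain ⟨s, hs, hs1⟩ := hwin z hz
    rw [mem_biUnion]
    exact ⟨s, mem_range.2 hs, mem_filter.2 ⟨hz, hs1⟩⟩
  obtain ⟨n1, n2⟩ := hN k n hk hb
  have hone : ∀ s ∈ range n, (((G.filter (fun z => good z c)).filter (fun z =>
        (∀ j, Φ.ac j z) ∧ Val (fun i => z (Sum.inr i)) ∧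
        b ≤ (univ.filter (fun i : Fin n => ∀ j, Sum.inr i ∈ Φ.rd j z → col j = 2)).card ∧
        a ≤ (from' s (univ.filter (fun i : Fin n => ∀ j, Sum.inl i ∈ Φ.rd j z → col j = 1))).card ∧
        firsts a (from' s (univ.filter (fun i : Fin n => ∀ j, Sum.inl i ∈ Φ.rd j z → col j = 1))) ⊆
          firsts (a + e) (from' s (univ.filter
            (fun i : Fin n => ∀ j, Sum.inl i ∈ Φ.rd j z → col j ≠ 0))))).card : ℝ) ≤
      2 * (1 / 2) ^ b * (Fintype.card D : ℝ) ^ (2 * n) := by
    intro s _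
    have h1 := count n (rr k) a b e s D Φ col Val (1 / 8) (by norm_num) (by norm_num) hcol
      ((G.filter (fun z => good z c)).filter (fun z =>
        (∀ j, Φ.ac j z) ∧ Val (fun i => z (Sum.inr i)) ∧
        b ≤ (univ.filter (fun i : Fin n => ∀ j, Sum.inr i ∈ Φ.rd j z → col j = 2)).card ∧
        a ≤ (from' s (univ.filter (fun i : Fin n => ∀ j, Sum.inl i ∈ Φ.rd j z → col j = 1))).card ∧
        firsts a (from' s (univ.filter (fun i : Fin n => ∀ j, Sum.inl i ∈ Φ.rd j z → col j = 1))) ⊆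
          firsts (a + e) (from' s (univ.filter
            (fun i : Fin n => ∀ j, Sum.inl i ∈ Φ.rd j z → col j ≠ 0)))))
      (fun z hz => (mem_filter.1 hz).2)
    refine h1.trans (mul_le_mul_of_nonneg_right ?_ (by positivity))
    have e1 : (1 - 1 / 8 : ℝ) = 7 / 8 := by norm_num
    rw [e1]
    linarith
  have hGc : ((G.filter (fun z => good z c)).card : ℝ) ≤
      n * (2 * (1 / 2) ^ b * (Fintype.card D : ℝ) ^ (2 * n)) := by
    have h1 := (card_le_card hcover).trans card_biUnion_le
    have h2 : ((G.filter (fun z => good z c)).card : ℝ) ≤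
        ((∑ s ∈ range n, ((G.filter (fun z => good z c)).filter (fun z =>
        (∀ j, Φ.ac j z) ∧ Val (fun i => z (Sum.inr i)) ∧
        b ≤ (univ.filter (fun i : Fin n => ∀ j, Sum.inr i ∈ Φ.rd j z → col j = 2)).card ∧
        a ≤ (from' s (univ.filter (fun i : Fin n => ∀ j, Sum.inl i ∈ Φ.rd j z → col j = 1))).card ∧
        firsts a (from' s (univ.filter (fun i : Fin n => ∀ j, Sum.inl i ∈ Φ.rd j z → col j = 1))) ⊆
          firsts (a + e) (from' s (univ.filter
            (fun i : Fin n => ∀ j, Sum.inl i ∈ Φ.rd j z → col j ≠ 0))))).card : ℕ) : ℝ) := by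
      exact_mod_cast h1
    refine h2.trans ?_
    rw [Nat.cast_sum]
    refine (sum_le_sum hone).trans ?_
    rw [sum_const, card_range, nsmul_eq_mul]
  have h5 : th k / 2 * (G.card : ℝ) ≤ n * (2 * (1 / 2) ^ b * (Fintype.card D : ℝ) ^ (2 * n)) :=
    hc.trans hGc
  have h6 : (G.card : ℝ) ≤
      n * (2 * (1 / 2) ^ b * (Fintype.card D : ℝ) ^ (2 * n)) / (th k / 2) := by
    rw [le_div_iff₀ (by positivity)]
    linarith
  refine h6.trans (le_of_eq ?_)
  field_simp
  ring

theorem main_of (hF : S_FOREST) (hW : S_WINDOW) (hC : S_COLOR) (hN : S_NUM) : S_MAIN := by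
  classical
  intro n k T D Q _ _ _ P Val hk hrn hT hb hcol G hG
  have hr := rr_pos hk
  have hn : 1 ≤ n := hr.trans hrn
  set h := k * n / rr k with hh
  have hrh : rr k * h ≤ k * n := Nat.mul_div_le _ _
  have hTr : T ≤ rr k * h := by
    have h1 : k * n < rr k * h + rr k := by
      have := Nat.lt_mul_div_succ (k * n) hr
      rw [mul_add, mul_one] at this
      exact this
    have h2 : (k - 1) * n + n = k * n := by
      obtain ⟨k', rfl⟩ : ∃ k', k = k' + 1 := ⟨k - 1, by omega⟩
      simp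
      ring
    omega
  obtain ⟨Φ, hΦ1, hΦ2⟩ := hF (Fin n ⊕ Fin n) D Q (P.pad T) (rr k) h hr
  have hst : ∀ z, (P.pad T).st z (rr k * h) = P.st z T := by
    intro z
    rw [Prog.pad_st, min_eq_right hTr]
  have hout : ∀ z, P.out (P.st z T) ↔ ∃ v, ∀ j, (Φ v).ac j z := by
    intro z
    rw [← hΦ2 z, hst]
    rfl
  have hcover : G ⊆ (univ : Finset (Fin (rr k) → Q)).biUnion (fun v =>
      G.filter (fun z => ∀ j, (Φ v).ac j z)) := by
    intro z hz
    obtain ⟨v, hv⟩ := (hout z).1 (hG z hz).1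
    rw [mem_biUnion]
    exact ⟨v, mem_univ _, mem_filter.2 ⟨hz, hv⟩⟩
  have hone : ∀ v ∈ (univ : Finset (Fin (rr k) → Q)),
      ((G.filter (fun z => ∀ j, (Φ v).ac j z)).card : ℝ) ≤
      (4 * n / th k) * (1 / 2) ^ bb k n * (Fintype.card D : ℝ) ^ (2 * n) := by
    intro v _
    refine forest_bound hW hC hN n k h D (Φ v) Val hk hn hb (hΦ1 v) hrh ?_ _ ?_
    · intro z hz hV
      exact hcol z ((hout z).2 ⟨v, hz⟩) hV
    · intro z hz
      rw [mem_filter] at hz
      exact ⟨hz.2, (hG z hz.1).2⟩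
  have h1 := (card_le_card hcover).trans card_biUnion_le
  have h2 : (G.card : ℝ) ≤ ((∑ v : Fin (rr k) → Q,
      (G.filter (fun z => ∀ j, (Φ v).ac j z)).card : ℕ) : ℝ) := by exact_mod_cast h1
  refine h2.trans ?_
  rw [Nat.cast_sum]
  refine (sum_le_sum hone).trans ?_
  rw [sum_const, card_univ, Fintype.card_fun, Fintype.card_fin, nsmul_eq_mul]
  push_cast
  exact le_of_eq (by ring)

end Pool.Agent.L7h66.TS
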