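import Pool.Agent.L7h66.TS.Stm

/-! # Project TS: the rectangles -/

set_option autoImplicit false

namespace Pool.Agent.L7h66.TS

open Finset

lemma firsts_subset {n : ℕ} (a : ℕ) (X : Finset (Fin n)) : firsts a X ⊆ X := filter_subset _ _

lemma firsts_card_le {n : ℕ} (a : ℕ) (X : Finset (Fin n)) : (firsts a X).card ≤ a := by
  by_contra hcon
  push Not at hcon
  have hne : (firsts a X).Nonempty := card_pos.1 (by omega)
  have hm := (firsts a X).max'_mem hne
  have h1 := (mem_filter.1 hm).2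
  have h2 : (firsts a X).erase ((firsts a X).max' hne) ⊆ X.filter (· < (firsts a X).max' hne) := by
    intro i hi
    rw [mem_erase] at hi
    rw [mem_filter]
    exact ⟨firsts_subset a X hi.2, lt_of_le_of_ne (le_max' _ _ hi.2) hi.1⟩
  have h3 := card_le_card h2
  rw [card_erase_of_mem hm] at h3
  omega

lemma firsts_card {n : ℕ} {a : ℕ} {X : Finset (Fin n)} (h : a ≤ X.card) : (firsts a X).card = a := by
  apply le_antisymm (firsts_card_le a X)
  -- the elements which are not among the first ones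
  by_cases hX : X ⊆ firsts a X
  · exact h.trans (card_le_card hX)
  · have hne : (X \ firsts a X).Nonempty := by
      rw [sdiff_nonempty]
      exact hX
    have hm := (X \ firsts a X).min'_mem hne
    rw [mem_sdiff] at hm
    have h1 : a ≤ (X.filter (· < (X \ firsts a X).min' hne)).card := by
      by_contra hcon
      push Not at hcon
      exact hm.2 (mem_filter.2 ⟨hm.1, hcon⟩)
    refine h1.trans (card_le_card ?_)
    intro i hi
    rw [mem_filter] at hi
    by_contra hcon
    have := (X \ firsts a X).min'_le i (mem_sdiff.2 ⟨hi.1, hcon⟩)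
    exact absurd hi.2 (not_lt.2 this)

section
variable {n : ℕ} {D : Type} [Fintype D] [DecidableEq D]

/-- glue the parts of an input -/
def glue (A B : Finset (Fin n)) (p : ({i // i ∈ A} → D) × ({i // i ∈ B} → D))
    (o : ({i // i ∉ A} → D) × ({i // i ∉ B} → D)) : Fin n ⊕ Fin n → D :=
  Sum.elim (fun i => if h : i ∈ A then p.1 ⟨i, h⟩ else o.1 ⟨i, h⟩)
    (fun i => if h : i ∈ B then p.2 ⟨i, h⟩ else o.2 ⟨i, h⟩)

/-- the parts of an input -/
def glueEquiv (A B : Finset (Fin n)) :
    ((({i // i ∈ A} → D) × ({i // i ∈ B} → D)) × (({i // i ∉ A} → D) × ({i // i ∉ B} → D))) ≃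
      (Fin n ⊕ Fin n → D) where
  toFun q := glue A B q.1 q.2
  invFun z := ((fun i => z (Sum.inl i.1), fun i => z (Sum.inr i.1)),
    (fun i => z (Sum.inl i.1), fun i => z (Sum.inr i.1)))
  left_inv := by
    rintro ⟨⟨xa, yb⟩, ⟨xo, yo⟩⟩
    simp only [glue, Sum.elim_inl, Sum.elim_inr, Prod.mk.injEq]
    refine ⟨⟨?_, ?_⟩, ?_, ?_⟩ <;> funext i <;> simp [i.2]
  right_inv := by
    intro z
    funext v
    rcases v with i | i
    · simp only [glue, Sum.elim_inl]
      split_ifs <;> rfl
    · simp only [glue, Sum.elim_inr]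
      split_ifs <;> rfl

lemma sum_glue (A B : Finset (Fin n)) (f : (Fin n ⊕ Fin n → D) → ℝ) :
    ∑ z, f z = ∑ o : ({i // i ∉ A} → D) × ({i // i ∉ B} → D),
      ∑ p : ({i // i ∈ A} → D) × ({i // i ∈ B} → D), f (glue A B p o) := by
  rw [← Equiv.sum_comp (glueEquiv A B) f, Fintype.sum_prod_type]
  rw [Finset.sum_comm]
  rfl

open Classical in
lemma card_eq_sum_glue (A B : Finset (Fin n)) (S : Finset (Fin n ⊕ Fin n → D)) :
    (S.card : ℝ) = ∑ o : ({i // i ∉ A} → D) × ({i // i ∉ B} → D),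
      ((univ.filter (fun p : ({i // i ∈ A} → D) × ({i // i ∈ B} → D) => glue A B p o ∈ S)).card : ℝ) := by
  have h : (S.card : ℝ) = ∑ z, if z ∈ S then (1 : ℝ) else 0 := by
    rw [Finset.sum_ite_mem, univ_inter, sum_const, nsmul_eq_mul, mul_one]
  rw [h, sum_glue A B]
  refine sum_congr rfl fun o _ => ?_
  rw [card_filter]
  push_cast
  rfl

open Classical in
/-- inputs which differ from one in `S` in the part `B` of the second list only -/
noncomputable def N2 (B : Finset (Fin n)) (S : Finset (Fin n ⊕ Fin n → D)) :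
    Finset (Fin n ⊕ Fin n → D) :=
  univ.filter (fun z => ∃ z' ∈ S, (∀ i, z (Sum.inl i) = z' (Sum.inl i)) ∧
    ∀ i, i ∉ B → z (Sum.inr i) = z' (Sum.inr i))

open Classical in
/-- inputs which differ from one in `S` in the part `A` of the first list only -/
noncomputable def N1 (A : Finset (Fin n)) (S : Finset (Fin n ⊕ Fin n → D)) :
    Finset (Fin n ⊕ Fin n → D) :=
  univ.filter (fun z => ∃ z' ∈ S, (∀ i, i ∉ A → z (Sum.inl i) = z' (Sum.inl i)) ∧
    ∀ i, z (Sum.inr i) = z' (Sum.inr i))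

omit [Fintype D] in
lemma card_values {A : Finset (Fin n)} (X : Finset ({i // i ∈ A} → D)) (V : Finset D)
    (h : ∀ x ∈ X, ∀ i, x i ∈ V) : X.card ≤ V.card ^ A.card := by
  have h1 : X ⊆ Fintype.piFinset (fun _ : {i // i ∈ A} => V) := by
    intro x hx
    rw [Fintype.mem_piFinset]
    exact h x hx
  refine (card_le_card h1).trans ?_
  rw [Fintype.card_piFinset, prod_const, card_univ, Fintype.card_coe]

open Classical in
theorem rect_bound (A B : Finset (Fin n)) (S : Finset (Fin n ⊕ Fin n → D)) {ζ : ℝ} (h0 : 0 ≤ ζ)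
    (h1 : ζ ≤ 1)
    (mix : ∀ z ∈ S, ∀ z' ∈ S, (∀ i, i ∉ A → z (Sum.inl i) = z' (Sum.inl i)) →
      (∀ i, i ∉ B → z (Sum.inr i) = z' (Sum.inr i)) →
      Sum.elim (fun i => z (Sum.inl i)) (fun i => z' (Sum.inr i)) ∈ S)
    (nc : ∀ z ∈ S, ∀ i ∈ A, ∀ i' ∈ B, z (Sum.inl i) ≠ z (Sum.inr i')) :
    (S.card : ℝ) ≤ ζ ^ B.card * (N2 B S).card + (1 - ζ) ^ A.card * (N1 A S).card := by
  have hz1 : 0 ≤ 1 - ζ := by linarith
  rw [card_eq_sum_glue A B S, card_eq_sum_glue A B (N2 B S), card_eq_sum_glue A B (N1 A S), mul_sum,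
    mul_sum, ← sum_add_distrib]
  refine sum_le_sum fun o _ => ?_
  obtain ⟨xo, yo⟩ := o
  set P := univ.filter (fun p : ({i // i ∈ A} → D) × ({i // i ∈ B} → D) => glue A B p (xo, yo) ∈ S)
    with hP
  set X := P.image Prod.fst with hX
  set Y := P.image Prod.snd with hY
  have hPXY : (P.card : ℝ) ≤ X.card * Y.card := by
    have : P ⊆ X ×ˢ Y := by
      intro p hp
      rw [mem_product]
      exact ⟨mem_image_of_mem _ hp, mem_image_of_mem _ hp⟩
    have h2 := card_le_card this
    rw [card_product] at h2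
    exact_mod_cast h2
  have hglue : ∀ p ∈ P, glue A B p (xo, yo) ∈ S := fun p hp => (mem_filter.1 hp).2
  -- the values
  set V1 := X.biUnion (fun x => univ.image x) with hV1
  set V2 := Y.biUnion (fun y => univ.image y) with hV2
  have hdisj : Disjoint V1 V2 := by
    rw [Finset.disjoint_left]
    intro d hd1 hd2
    rw [hV1, mem_biUnion] at hd1
    rw [hV2, mem_biUnion] at hd2
    obtain ⟨x, hx, hx'⟩ := hd1
    obtain ⟨y, hy, hy'⟩ := hd2
    obtain ⟨p, hp, rfl⟩ := mem_image.1 hx
    obtain ⟨p', hp', rfl⟩ := mem_image.1 hy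
    obtain ⟨i, -, hi⟩ := mem_image.1 hx'
    obtain ⟨i', -, hi'⟩ := mem_image.1 hy'
    have h2 := mix _ (hglue p hp) _ (hglue p' hp') (by
      intro i hi
      simp [glue, hi]) (by
      intro i hi
      simp [glue, hi])
    refine nc _ h2 i.1 i.2 i'.1 i'.2 ?_
    simp only [Sum.elim_inl, Sum.elim_inr, glue, i.2, i'.2, dif_pos, Subtype.coe_eta]
    rw [hi, hi']
  have hcard : V1.card + V2.card ≤ Fintype.card D := by
    rw [← card_union_of_disjoint hdisj]
    exact card_le_univ _
  have hXc : X.card ≤ V1.card ^ A.card := card_values X V1 (fun x hx i =>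
    mem_biUnion.2 ⟨x, hx, mem_image_of_mem _ (mem_univ i)⟩)
  have hYc : Y.card ≤ V2.card ^ B.card := card_values Y V2 (fun x hx i =>
    mem_biUnion.2 ⟨x, hx, mem_image_of_mem _ (mem_univ i)⟩)
  -- the neighbourhoods
  have hN2 : (X.card : ℝ) * (Fintype.card D : ℝ) ^ B.card ≤
      ((univ.filter (fun p : ({i // i ∈ A} → D) × ({i // i ∈ B} → D) =>
        glue A B p (xo, yo) ∈ N2 B S)).card : ℝ) := by
    have : X ×ˢ (univ : Finset ({i // i ∈ B} → D)) ⊆ univ.filter
        (fun p : ({i // i ∈ A} → D) × ({i // i ∈ B} → D) => glue A B p (xo, yo) ∈ N2 B S) := by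
      rintro ⟨x, y⟩ hxy
      rw [mem_product] at hxy
      obtain ⟨p, hp, hpx⟩ := mem_image.1 hxy.1
      rw [mem_filter]
      refine ⟨mem_univ _, ?_⟩
      rw [N2, mem_filter]
      refine ⟨mem_univ _, _, hglue p hp, ?_, ?_⟩
      · intro i
        simp only [glue, Sum.elim_inl, hpx]
      · intro i hi
        simp [glue, hi]
    have h2 := card_le_card this
    rw [card_product, card_univ, Fintype.card_fun, Fintype.card_coe] at h2
    exact_mod_cast h2
  have hN1 : (Y.card : ℝ) * (Fintype.card D : ℝ) ^ A.card ≤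
      ((univ.filter (fun p : ({i // i ∈ A} → D) × ({i // i ∈ B} → D) =>
        glue A B p (xo, yo) ∈ N1 A S)).card : ℝ) := by
    have : (univ : Finset ({i // i ∈ A} → D)) ×ˢ Y ⊆ univ.filter
        (fun p : ({i // i ∈ A} → D) × ({i // i ∈ B} → D) => glue A B p (xo, yo) ∈ N1 A S) := by
      rintro ⟨x, y⟩ hxy
      rw [mem_product] at hxy
      obtain ⟨p, hp, hpx⟩ := mem_image.1 hxy.2
      rw [mem_filter]
      refine ⟨mem_univ _, ?_⟩
      rw [N1, mem_filter]
      refine ⟨mem_univ _, _, hglue p hp, ?_, ?_⟩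
      · intro i hi
        simp [glue, hi]
      · intro i
        simp only [glue, Sum.elim_inr, hpx]
    have h2 := card_le_card this
    rw [card_product, card_univ, Fintype.card_fun, Fintype.card_coe, mul_comm] at h2
    exact_mod_cast h2
  -- the two cases
  have hX0 : (0 : ℝ) ≤ X.card := Nat.cast_nonneg _
  have hY0 : (0 : ℝ) ≤ Y.card := Nat.cast_nonneg _
  have hD0 : (0 : ℝ) ≤ Fintype.card D := Nat.cast_nonneg _
  rcases le_or_gt (V2.card : ℝ) (ζ * Fintype.card D) with hv | hv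
  · have hYr : (Y.card : ℝ) ≤ ζ ^ B.card * (Fintype.card D : ℝ) ^ B.card := by
      have : (Y.card : ℝ) ≤ (V2.card : ℝ) ^ B.card := by exact_mod_cast hYc
      refine this.trans ?_
      rw [← mul_pow]
      exact pow_le_pow_left₀ (Nat.cast_nonneg _) hv _
    calc (P.card : ℝ) ≤ X.card * Y.card := hPXY
      _ ≤ X.card * (ζ ^ B.card * (Fintype.card D : ℝ) ^ B.card) :=
          mul_le_mul_of_nonneg_left hYr hX0
      _ = ζ ^ B.card * (X.card * (Fintype.card D : ℝ) ^ B.card) := by ring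
      _ ≤ ζ ^ B.card * _ := mul_le_mul_of_nonneg_left hN2 (by positivity)
      _ ≤ _ := le_add_of_nonneg_right (by positivity)
  · have hV1' : (V1.card : ℝ) ≤ (1 - ζ) * Fintype.card D := by
      have : (V1.card : ℝ) + V2.card ≤ Fintype.card D := by exact_mod_cast hcard
      linarith
    have hXr : (X.card : ℝ) ≤ (1 - ζ) ^ A.card * (Fintype.card D : ℝ) ^ A.card := by
      have : (X.card : ℝ) ≤ (V1.card : ℝ) ^ A.card := by exact_mod_cast hXc
      refine this.trans ?_
      rw [← mul_pow]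
      exact pow_le_pow_left₀ (Nat.cast_nonneg _) hV1' _
    calc (P.card : ℝ) ≤ X.card * Y.card := hPXY
      _ ≤ (1 - ζ) ^ A.card * (Fintype.card D : ℝ) ^ A.card * Y.card :=
          mul_le_mul_of_nonneg_right hXr hY0
      _ = (1 - ζ) ^ A.card * (Y.card * (Fintype.card D : ℝ) ^ A.card) := by ring
      _ ≤ (1 - ζ) ^ A.card * _ := mul_le_mul_of_nonneg_left hN1 (by positivity)
      _ ≤ _ := le_add_of_nonneg_left (by positivity)

end

section
variable {n r : ℕ} {D : Type}

open Classical in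
/-- not read by the trees with `col j = 0` -/
noncomputable def U1 (Φ : Forest (Fin n ⊕ Fin n) D r) (col : Fin r → ℕ) (z : Fin n ⊕ Fin n → D) :
    Finset (Fin n) := univ.filter (fun i : Fin n => ∀ j, Sum.inl i ∈ Φ.rd j z → col j ≠ 0)

open Classical in
noncomputable def A1 (Φ : Forest (Fin n ⊕ Fin n) D r) (col : Fin r → ℕ) (z : Fin n ⊕ Fin n → D) :
    Finset (Fin n) := univ.filter (fun i : Fin n => ∀ j, Sum.inl i ∈ Φ.rd j z → col j = 1)

open Classical in
noncomputable def A2 (Φ : Forest (Fin n ⊕ Fin n) D r) (col : Fin r → ℕ) (z : Fin n ⊕ Fin n → D) :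
    Finset (Fin n) := univ.filter (fun i : Fin n => ∀ j, Sum.inr i ∈ Φ.rd j z → col j = 2)

variable {Φ : Forest (Fin n ⊕ Fin n) D r} {col : Fin r → ℕ}

/-- if `w` differs from `z` only in a part of `A2 z`, the trees with `col j ≠ 2` do the same -/
lemma same2 {z w : Fin n ⊕ Fin n → D} (hl : ∀ i, w (Sum.inl i) = z (Sum.inl i))
    (hr : ∀ i, i ∉ A2 Φ col z → w (Sum.inr i) = z (Sum.inr i)) {j : Fin r} (hj : col j ≠ 2) :
    Φ.rd j z = Φ.rd j w ∧ (Φ.ac j z ↔ Φ.ac j w) := by
  have h := Φ.loc j z w (by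
    rintro (i | i) hi
    · exact (hl i).symm
    · refine (hr i ?_).symm
      intro hA
      exact hj ((mem_filter.1 hA).2 j hi))
  exact ⟨h.1.symm, h.2⟩

lemma same1 {z w : Fin n ⊕ Fin n → D} (hr : ∀ i, w (Sum.inr i) = z (Sum.inr i))
    (hl : ∀ i, i ∉ A1 Φ col z → w (Sum.inl i) = z (Sum.inl i)) {j : Fin r} (hj : col j ≠ 1) :
    Φ.rd j z = Φ.rd j w ∧ (Φ.ac j z ↔ Φ.ac j w) := by
  have h := Φ.loc j z w (by
    rintro (i | i) hi
    · refine (hl i ?_).symm
      intro hA
      exact hj ((mem_filter.1 hA).2 j hi)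
    · exact (hr i).symm)
  exact ⟨h.1.symm, h.2⟩

lemma A2_same {z w : Fin n ⊕ Fin n → D} (h : ∀ j, col j ≠ 2 → Φ.rd j z = Φ.rd j w) :
    A2 Φ col z = A2 Φ col w := by
  ext i
  simp only [A2, mem_filter, mem_univ, true_and]
  constructor
  · intro h1 j hj
    by_contra hcon
    exact hcon (h1 j (by rw [h j hcon]; exact hj))
  · intro h1 j hj
    by_contra hcon
    exact hcon (h1 j (by rw [← h j hcon]; exact hj))

lemma A1_same {z w : Fin n ⊕ Fin n → D} (h : ∀ j, col j ≠ 1 → Φ.rd j z = Φ.rd j w) :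
    A1 Φ col z = A1 Φ col w := by
  ext i
  simp only [A1, mem_filter, mem_univ, true_and]
  constructor
  · intro h1 j hj
    by_contra hcon
    exact hcon (h1 j (by rw [h j hcon]; exact hj))
  · intro h1 j hj
    by_contra hcon
    exact hcon (h1 j (by rw [← h j hcon]; exact hj))

lemma U1_same {z w : Fin n ⊕ Fin n → D} (h : ∀ j, col j = 0 → Φ.rd j z = Φ.rd j w) :
    U1 Φ col z = U1 Φ col w := by
  ext i
  simp only [U1, mem_filter, mem_univ, true_and]
  constructor
  · intro h1 j hj h0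
    exact h1 j (by rw [h j h0]; exact hj) h0
  · intro h1 j hj h0
    exact h1 j (by rw [← h j h0]; exact hj) h0

end

theorem count : S_COUNT := by
  classical
  intro n r a b e s D _ _ Φ col Val ζ h0 h1 hcol G hG
  have hz1 : 0 ≤ 1 - ζ := by linarith
  -- the properties in terms of `U1`, `A1`, `A2`
  have hG' : ∀ z ∈ G, (∀ j, Φ.ac j z) ∧ Val (fun i => z (Sum.inr i)) ∧ b ≤ (A2 Φ col z).card ∧
      a ≤ (from' s (A1 Φ col z)).card ∧
      firsts a (from' s (A1 Φ col z)) ⊆ firsts (a + e) (from' s (U1 Φ col z)) := by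
    intro z hz
    obtain ⟨g1, g2, g3, g4, g5⟩ := hG z hz
    refine ⟨g1, g2, ?_, ?_, ?_⟩
    · convert g3 using 2
      ext i
      simp [A2]
    · convert g4 using 3
      ext i
      simp [A1]
    · convert g5 using 3
      · ext i
        simp [A1]
      · ext i
        simp [U1]
  set F := (univ : Finset (Fin n ⊕ Fin n → D)).filter (fun z => (∀ j, Φ.ac j z) ∧
      Val (fun i => z (Sum.inr i)) ∧ b ≤ (A2 Φ col z).card ∧
      a ≤ (from' s (A1 Φ col z)).card ∧
      firsts a (from' s (A1 Φ col z)) ⊆ firsts (a + e) (from' s (U1 Φ col z))) with hF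
  have hGF : G ⊆ F := fun z hz => mem_filter.2 ⟨mem_univ _, hG' z hz⟩
  set fA : (Fin n ⊕ Fin n → D) → Finset (Fin n) := fun z => firsts a (from' s (A1 Φ col z)) with hfA
  set fB : (Fin n ⊕ Fin n → D) → Finset (Fin n) := fun z => firsts b (A2 Φ col z) with hfB
  have hfA1 : ∀ z i, i ∉ A1 Φ col z → i ∉ fA z := fun z i hi h =>
    hi (filter_subset _ _ (firsts_subset _ _ h))
  have hfB1 : ∀ z i, i ∉ A2 Φ col z → i ∉ fB z := fun z i hi h => hi (firsts_subset _ _ h)
  have hcA : ∀ z ∈ F, (fA z).card = a := fun z hz => firsts_card (mem_filter.1 hz).2.2.2.2.1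
  have hcB : ∀ z ∈ F, (fB z).card = b := fun z hz => firsts_card (mem_filter.1 hz).2.2.2.1
  set t := (powersetCard a (univ : Finset (Fin n))) ×ˢ (powersetCard b (univ : Finset (Fin n)))
    with ht
  have hmaps : ∀ z ∈ F, (fA z, fB z) ∈ t := by
    intro z hz
    rw [ht, mem_product, mem_powersetCard, mem_powersetCard]
    exact ⟨⟨subset_univ _, hcA z hz⟩, ⟨subset_univ _, hcB z hz⟩⟩
  set S : Finset (Fin n) × Finset (Fin n) → Finset (Fin n ⊕ Fin n → D) :=
    fun p => F.filter (fun z => (fA z, fB z) = p) with hS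
  have hFsum : F.card = ∑ p ∈ t, (S p).card := card_eq_sum_card_fiberwise hmaps
  -- one pair
  have key : ∀ p ∈ t, ((S p).card : ℝ) ≤ ζ ^ b * (N2 p.2 (S p)).card +
      (1 - ζ) ^ a * (N1 p.1 (S p)).card := by
    rintro ⟨A, B⟩ hp
    rw [ht, mem_product, mem_powersetCard, mem_powersetCard] at hp
    have hr := rect_bound A B (S (A, B)) h0 h1 ?_ ?_
    · rw [hp.1.2, hp.2.2] at hr
      exact hr
    · intro z hz z' hz' hl hr
      rw [hS] at hz hz'
      simp only [mem_filter, Prod.mk.injEq] at hz hz'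
      obtain ⟨hzF, hzA, hzB⟩ := hz
      obtain ⟨hzF', hzA', hzB'⟩ := hz'
      set w : Fin n ⊕ Fin n → D := Sum.elim (fun i => z (Sum.inl i)) (fun i => z' (Sum.inr i)) with hw
      -- `w` against `z`
      have s2 : ∀ j, col j ≠ 2 → Φ.rd j z = Φ.rd j w ∧ (Φ.ac j z ↔ Φ.ac j w) := by
        intro j hj
        refine same2 (fun i => by simp [hw]) (fun i hi => ?_) hj
        simp only [hw, Sum.elim_inr]
        exact (hr i (by rw [← hzB]; exact hfB1 z i hi)).symm
      have s1 : ∀ j, col j ≠ 1 → Φ.rd j z' = Φ.rd j w ∧ (Φ.ac j z' ↔ Φ.ac j w) := by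
        intro j hj
        refine same1 (fun i => by simp [hw]) (fun i hi => ?_) hj
        simp only [hw, Sum.elim_inl]
        exact hl i (by rw [← hzA']; exact hfA1 z' i hi)
      have e2 : A2 Φ col w = A2 Φ col z := (A2_same fun j hj => (s2 j hj).1).symm
      have e1 : A1 Φ col w = A1 Φ col z' := (A1_same fun j hj => (s1 j hj).1).symm
      have e0 : U1 Φ col w = U1 Φ col z' := (U1_same fun j hj => (s1 j (by omega)).1).symm
      have p1 := (mem_filter.1 hzF).2
      have p2 := (mem_filter.1 hzF').2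
      rw [hS]
      simp only [mem_filter, Prod.mk.injEq]
      refine ⟨?_, ?_, ?_⟩
      · rw [hF, mem_filter]
        refine ⟨mem_univ _, ?_, ?_, ?_, ?_, ?_⟩
        · intro j
          by_cases hj : col j = 2
          · exact (s1 j (by omega)).2.1 (p2.1 j)
          · exact (s2 j hj).2.1 (p1.1 j)
        · have : (fun i => w (Sum.inr i)) = fun i => z' (Sum.inr i) := by
            funext i; simp [hw]
          rw [this]
          exact p2.2.1
        · rw [e2]; exact p1.2.2.1
        · rw [e1]; exact p2.2.2.2.1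
        · rw [e1, e0]; exact p2.2.2.2.2
      · simp only [hfA, e1]
        exact hzA'
      · simp only [hfB, e2]
        exact hzB
    · intro z hz i _ i' _
      rw [hS] at hz
      have p1 := (mem_filter.1 (mem_filter.1 hz).1).2
      exact hcol z p1.1 p1.2.1 i i'
  -- sum of the neighbourhoods
  have hswap : ∀ (N : Finset (Fin n) × Finset (Fin n) → Finset (Fin n ⊕ Fin n → D)) (C : ℕ),
      (∀ z, (t.filter (fun p => z ∈ N p)).card ≤ C) →
      ((∑ p ∈ t, (N p).card : ℕ) : ℝ) ≤ C * (Fintype.card D : ℝ) ^ (2 * n) := by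
    intro N C hC
    have e1 : ∑ p ∈ t, (N p).card = ∑ z : Fin n ⊕ Fin n → D, (t.filter (fun p => z ∈ N p)).card := by
      simp_rw [card_filter]
      rw [sum_comm]
      refine sum_congr rfl fun p _ => ?_
      rw [← card_filter]
      congr 1
      ext z
      simp
    rw [e1]
    have e2 : ∑ z : Fin n ⊕ Fin n → D, (t.filter (fun p => z ∈ N p)).card ≤
        ∑ _z : Fin n ⊕ Fin n → D, C := sum_le_sum fun z _ => hC z
    rw [sum_const, card_univ, Fintype.card_fun, Fintype.card_sum, Fintype.card_fin, smul_eq_mul] at e2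
    calc ((∑ z : Fin n ⊕ Fin n → D, (t.filter (fun p => z ∈ N p)).card : ℕ) : ℝ)
        ≤ ((Fintype.card D ^ (n + n) * C : ℕ) : ℝ) := by exact_mod_cast e2
      _ = _ := by push_cast; rw [two_mul]; ring
  have hN2 : ((∑ p ∈ t, (N2 p.2 (S p)).card : ℕ) : ℝ) ≤
      ((a + e).choose a : ℕ) * (Fintype.card D : ℝ) ^ (2 * n) := by
    apply hswap
    intro z
    have hsub : t.filter (fun p => z ∈ N2 p.2 (S p)) ⊆
        (powersetCard a (firsts (a + e) (from' s (U1 Φ col z)))) ×ˢ {fB z} := by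
      rintro ⟨A, B⟩ hp
      rw [mem_filter] at hp
      obtain ⟨hp1, hp2⟩ := hp
      simp only [N2, mem_filter, mem_univ, true_and] at hp2
      obtain ⟨z', hz', hl, hr⟩ := hp2
      rw [hS] at hz'
      simp only [mem_filter, Prod.mk.injEq] at hz'
      obtain ⟨hzF', hzA', hzB'⟩ := hz'
      have s2 : ∀ j, col j ≠ 2 → Φ.rd j z' = Φ.rd j z ∧ (Φ.ac j z' ↔ Φ.ac j z) := by
        intro j hj
        refine same2 hl (fun i hi => hr i ?_) hj
        rw [← hzB']
        exact hfB1 z' i hi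
      have e2 : A2 Φ col z = A2 Φ col z' := (A2_same fun j hj => (s2 j hj).1).symm
      have e0 : U1 Φ col z = U1 Φ col z' := (U1_same fun j hj => (s2 j (by omega)).1).symm
      have p2 := (mem_filter.1 hzF').2
      rw [mem_product, mem_powersetCard, mem_singleton]
      refine ⟨⟨?_, ?_⟩, ?_⟩
      · rw [e0, ← hzA']
        exact p2.2.2.2.2
      · rw [← hzA']
        exact hcA z' hzF'
      · simp only [hfB, e2]
        exact hzB'.symm
    refine (card_le_card hsub).trans ?_
    rw [card_product, card_powersetCard, card_singleton, mul_one]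
    exact Nat.choose_le_choose _ (firsts_card_le _ _)
  have hN1 : ((∑ p ∈ t, (N1 p.1 (S p)).card : ℕ) : ℝ) ≤
      (n.choose b : ℕ) * (Fintype.card D : ℝ) ^ (2 * n) := by
    apply hswap
    intro z
    have hsub : t.filter (fun p => z ∈ N1 p.1 (S p)) ⊆
        {fA z} ×ˢ (powersetCard b (univ : Finset (Fin n))) := by
      rintro ⟨A, B⟩ hp
      rw [mem_filter] at hp
      obtain ⟨hp1, hp2⟩ := hp
      simp only [N1, mem_filter, mem_univ, true_and] at hp2
      obtain ⟨z', hz', hl, hr⟩ := hp2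
      rw [hS] at hz'
      simp only [mem_filter, Prod.mk.injEq] at hz'
      obtain ⟨hzF', hzA', hzB'⟩ := hz'
      have s1 : ∀ j, col j ≠ 1 → Φ.rd j z' = Φ.rd j z ∧ (Φ.ac j z' ↔ Φ.ac j z) := by
        intro j hj
        refine same1 hr (fun i hi => hl i ?_) hj
        rw [← hzA']
        exact hfA1 z' i hi
      have e1 : A1 Φ col z = A1 Φ col z' := (A1_same fun j hj => (s1 j hj).1).symm
      rw [ht, mem_product] at hp1
      rw [mem_product, mem_singleton]
      refine ⟨?_, hp1.2⟩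
      simp only [hfA, e1]
      exact hzA'.symm
    refine (card_le_card hsub).trans ?_
    rw [card_product, card_powersetCard, card_singleton, one_mul, card_univ, Fintype.card_fin]
  calc (G.card : ℝ) ≤ F.card := by exact_mod_cast card_le_card hGF
    _ = ∑ p ∈ t, ((S p).card : ℝ) := by rw [hFsum]; push_cast; rfl
    _ ≤ ∑ p ∈ t, (ζ ^ b * (N2 p.2 (S p)).card + (1 - ζ) ^ a * (N1 p.1 (S p)).card) :=
        sum_le_sum key
    _ = ζ ^ b * ((∑ p ∈ t, (N2 p.2 (S p)).card : ℕ) : ℝ) +
        (1 - ζ) ^ a * ((∑ p ∈ t, (N1 p.1 (S p)).card : ℕ) : ℝ) := by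
        rw [sum_add_distrib, ← mul_sum, ← mul_sum]; push_cast; rfl
    _ ≤ ζ ^ b * (((a + e).choose a : ℕ) * (Fintype.card D : ℝ) ^ (2 * n)) +
        (1 - ζ) ^ a * ((n.choose b : ℕ) * (Fintype.card D : ℝ) ^ (2 * n)) :=
        add_le_add (mul_le_mul_of_nonneg_left hN2 (by positivity))
          (mul_le_mul_of_nonneg_left hN1 (by positivity))
    _ = _ := by ring

end Pool.Agent.L7h66.TS
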