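import Mathlib

/-!
# Project TS: time and space for triangle detection (programs with random access)

Definitions and exact statements of the parts.
-/

set_option autoImplicit false

namespace Pool.Agent.L7h66.TS

open Finset

/-- a (nonuniform) program with random access to a read-only input `z : ι → D` and the set `Q` of
memory states; in the step number `t` it reads one item of the input and changes its state -/
structure Prog (ι D Q : Type) where
  init : Q
  pos : ℕ → Q → ι
  next : ℕ → Q → D → Q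
  out : Q → Prop

/-- the state after `t` steps -/
def Prog.st {ι D Q : Type} (P : Prog ι D Q) (z : ι → D) : ℕ → Q
  | 0 => P.init
  | t + 1 => P.next t (P.st z t) (z (P.pos t (P.st z t)))

/-- a family of `r` decision trees: `rd j z` is the set of the items which the tree number `j` reads on
the input `z`, `ac j z` means that it accepts -/
structure Forest (ι D : Type) (r : ℕ) where
  rd : Fin r → (ι → D) → Finset ι
  ac : Fin r → (ι → D) → Prop
  loc : ∀ j z z', (∀ i ∈ rd j z, z i = z' i) → rd j z' = rd j z ∧ (ac j z ↔ ac j z')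

/-- the first `a` elements -/
def firsts {n : ℕ} (a : ℕ) (X : Finset (Fin n)) : Finset (Fin n) :=
  X.filter (fun i => (X.filter (· < i)).card < a)

/-- the elements from `s` on -/
def from' {n : ℕ} (s : ℕ) (X : Finset (Fin n)) : Finset (Fin n) := X.filter (fun i => s ≤ (i : ℕ))

/-- BLOCKS: cut a computation of `r * h` steps into `r` decision trees, for every choice of the states
at the ends of the blocks -/
def S_FOREST : Prop :=
  ∀ (ι D Q : Type) [DecidableEq ι] (P : Prog ι D Q) (r h : ℕ), 1 ≤ r →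
    ∃ Φ : (Fin r → Q) → Forest ι D r, (∀ v j z, ((Φ v).rd j z).card ≤ h) ∧
      ∀ z, P.out (P.st z (r * h)) ↔ ∃ v, ∀ j, (Φ v).ac j z

/-- WINDOW: `X ⊆ U`; if there are at least `g * a` elements in `X` and at most `g * (e + 1) - 1` in
`U \ X`, then for some start `s` the first `a` elements of `X` from `s` on are among the first `a + e`
elements of `U` from `s` on -/
def S_WINDOW : Prop :=
  ∀ (n a e g : ℕ) (X U : Finset (Fin n)), X ⊆ U → 1 ≤ a → 1 ≤ g → g * a ≤ X.card →
    (U \ X).card < g * (e + 1) →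
    ∃ s < n, a ≤ (from' s X).card ∧ firsts a (from' s X) ⊆ firsts (a + e) (from' s U)

/-- the sides of the colours: `2` for the colour `0`, `1` for the colours `1, …, L`, otherwise `0` -/
def side (L : ℕ) (c : ℕ) : ℕ := if c = 0 then 2 else if c ≤ L then 1 else 0

/-- the elements whose trees all have sides in `A` -/
def core {n r : ℕ} (L : ℕ) (R : Fin n → Finset (Fin r)) (c : Fin r → Fin (4 * L)) (A : Finset ℕ) :
    Finset (Fin n) := univ.filter (fun i => ∀ j ∈ R i, side L (c j) ∈ A)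

/-- COLOUR: the trees are coloured at random with `4 * L` colours, colour `0` gives side `2`, colours
`1 … L` give side `1`. `R i`, `R' i` are the sets of trees which read the item `i` of the two sides. -/
def S_COLOR : Prop :=
  ∀ (n k L r : ℕ) (R R' : Fin n → Finset (Fin r)), 1 ≤ n → 1 ≤ k → 16 * k ≤ L →
    ∑ i, (R i).card ≤ k * n → ∑ i, (R' i).card ≤ k * n →
    ∀ θ : ℝ, θ = (k : ℝ) / L * (1 / (256 * (L : ℝ) ^ 2)) ^ k →
    4 * (((univ : Finset (Fin n × Fin n)).filter
      (fun p => ¬ Disjoint (R p.1) (R' p.2))).card : ℝ) ≤ θ * (n : ℝ) ^ 2 →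
    θ / 2 * ((4 * L : ℕ) : ℝ) ^ r ≤
      (((univ : Finset (Fin r → Fin (4 * L))).filter (fun c =>
        θ * n / 2 ≤ ((core L R' c {2}).card : ℝ) ∧ θ * n / 2 ≤ ((core L R c {1}).card : ℝ) ∧
        ((core L R c {1, 2} \ core L R c {1}).card : ℝ) ≤
          16 * k / L * ((core L R c {1}).card : ℝ))).card : ℝ)

/-- COUNT: the rectangles. `col j ∈ {0, 1, 2}` is the side of the tree `j`. -/
def S_COUNT : Prop :=
  ∀ (n r a b e s : ℕ) (D : Type) [Fintype D] [DecidableEq D] (Φ : Forest (Fin n ⊕ Fin n) D r)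
    (col : Fin r → ℕ) (Val : (Fin n → D) → Prop) (ζ : ℝ), 0 ≤ ζ → ζ ≤ 1 →
    (∀ z : Fin n ⊕ Fin n → D, (∀ j, Φ.ac j z) → Val (fun i => z (Sum.inr i)) →
      ∀ i i', z (Sum.inl i) ≠ z (Sum.inr i')) →
    ∀ G : Finset (Fin n ⊕ Fin n → D),
      (∀ z ∈ G, (∀ j, Φ.ac j z) ∧ Val (fun i => z (Sum.inr i)) ∧
        b ≤ (univ.filter (fun i : Fin n => ∀ j, Sum.inr i ∈ Φ.rd j z → col j = 2)).card ∧
        a ≤ (from' s (univ.filter (fun i : Fin n => ∀ j, Sum.inl i ∈ Φ.rd j z → col j = 1))).card ∧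
        firsts a (from' s (univ.filter (fun i : Fin n => ∀ j, Sum.inl i ∈ Φ.rd j z → col j = 1))) ⊆
          firsts (a + e) (from' s (univ.filter
            (fun i : Fin n => ∀ j, Sum.inl i ∈ Φ.rd j z → col j ≠ 0)))) →
      (G.card : ℝ) ≤ ((1 - ζ) ^ a * (n.choose b) + ζ ^ b * ((a + e).choose a)) *
        (Fintype.card D : ℝ) ^ (2 * n)

/-- the parameters -/
def lam (k : ℕ) : ℕ := 512 * k ^ 2
def LL (k : ℕ) : ℕ := 32 * k * lam k ^ 2
def rr (k : ℕ) : ℕ := k * LL k * (256 * LL k ^ 2) ^ k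
noncomputable def th (k : ℕ) : ℝ := (k : ℝ) / LL k * (1 / (256 * (LL k : ℝ) ^ 2)) ^ k
noncomputable def bb (k n : ℕ) : ℕ := ⌊th k * n / (4 * lam k)⌋₊

/-- NUM: the numerical facts about the parameters -/
def S_NUM : Prop :=
  ∀ k n : ℕ, 1 ≤ k → 1 ≤ bb k n →
    (7 / 8 : ℝ) ^ (lam k * bb k n) * (n.choose (bb k n)) ≤ (1 / 2) ^ bb k n ∧
    (1 / 8 : ℝ) ^ bb k n * ((lam k * bb k n + bb k n / lam k).choose (lam k * bb k n)) ≤
      (1 / 2) ^ bb k n

/-- MAIN: programs whose input are two lists of `n` items and which accept only inputs that have no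
item common to both lists (if the second list is valid) accept few valid inputs -/
def S_MAIN : Prop :=
  ∀ (n k T : ℕ) (D Q : Type) [Fintype D] [DecidableEq D] [Fintype Q]
    (P : Prog (Fin n ⊕ Fin n) D Q) (Val : (Fin n → D) → Prop), 1 ≤ k → rr k ≤ n →
    T ≤ (k - 1) * n → 1 ≤ bb k n →
    (∀ z : Fin n ⊕ Fin n → D, P.out (P.st z T) → Val (fun i => z (Sum.inr i)) →
      ∀ i i', z (Sum.inl i) ≠ z (Sum.inr i')) →
    ∀ G : Finset (Fin n ⊕ Fin n → D),
      (∀ z ∈ G, P.out (P.st z T) ∧ Val (fun i => z (Sum.inr i))) →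
      (G.card : ℝ) ≤ (Fintype.card Q : ℝ) ^ rr k * (4 * n / th k) * (1 / 2) ^ bb k n *
        (Fintype.card D : ℝ) ^ (2 * n)

/-- the list of the edges of a simple graph with the vertices `0, …, V - 1`: every item is a pair
`(u, v)` with `u < v`, and no pair occurs twice -/
def Simple {m V : ℕ} (E : Fin m → Fin V × Fin V) : Prop :=
  (∀ l, (E l).1 < (E l).2) ∧ Function.Injective E

/-- the graph has a triangle -/
def Triangle {m V : ℕ} (E : Fin m → Fin V × Fin V) : Prop :=
  ∃ u v w : Fin V, (∃ l, E l = (u, v)) ∧ (∃ l, E l = (v, w)) ∧ ∃ l, E l = (u, w)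

/-- ENC: the hard lists of edges. The item number `i` of the first list, a pair `(α, β)`, becomes the
two edges `x_α z_i`, `y_β z_i`, the item `(α, β)` of the second list becomes the edge `x_α y_β`. -/
def S_ENC : Prop :=
  ∀ (n m V : ℕ), 3 ≤ n → 3 * n ≤ m → m ≤ 3 * n + 2 → 2 * m ≤ V →
    ∃ (it : Fin m → Fin n ⊕ Fin n) (ent : Fin m → Fin (2 * n) × Fin (2 * n) → Fin V × Fin V),
      ∀ z : Fin n ⊕ Fin n → Fin (2 * n) × Fin (2 * n),
        (Simple (fun l => ent l (z (it l))) ↔ Function.Injective (fun i => z (Sum.inr i))) ∧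
        (Triangle (fun l => ent l (z (it l))) ↔ ∃ i i', z (Sum.inl i) = z (Sum.inr i'))

/-- GOOD: most inputs are good -/
def S_GOOD : Prop :=
  ∀ n : ℕ, 1 ≤ n → ((2 * n) ^ 2) ^ (2 * n) ≤
    2 * ((univ : Finset (Fin n ⊕ Fin n → Fin (2 * n) × Fin (2 * n))).filter (fun z =>
      Function.Injective (fun i => z (Sum.inr i)) ∧ ∀ i i', z (Sum.inl i) ≠ z (Sum.inr i'))).card

end Pool.Agent.L7h66.TS
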